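import Mathlib

/-! Small cancellation without diagrams: lines in integer metric spaces satisfying the four point
condition (plan of helper844, doc 955). -/

set_option autoImplicit false

namespace Pool.Agent.Helper844.SCV.SC

/-- an integer valued metric with the four point condition -/
structure Met (X : Type*) where
  d : X → X → ℕ
  d_self : ∀ u, d u u = 0
  d_eq : ∀ u v, d u v = 0 → u = v
  d_comm : ∀ u v, d u v = d v u
  fp : ∀ u v w z, d u v + d w z ≤ max (d u w + d v z) (d u z + d v w)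

variable {X : Type*} {M : Met X}

theorem Met.tri (M : Met X) (u v w : X) : M.d u w ≤ M.d u v + M.d v w := by
  have := M.fp u w v v
  rw [M.d_self, M.d_comm w v] at this
  omega

variable (M) in
/-- a bi-infinite geodesic -/
structure Line where
  y : ℤ → X
  hy : ∀ a b, M.d (y a) (y b) = (a - b).natAbs

theorem vee_unique {f : ℤ → ℤ} {A B A' B' : ℤ} (h : ∀ k, f k = max (A + k) (B - k))
    (h' : ∀ k, f k = max (A' + k) (B' - k)) : A = A' ∧ B = B' := by
  have h1 := h (A.natAbs + B.natAbs + A'.natAbs + B'.natAbs + 1)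
  have h2 := h' (A.natAbs + B.natAbs + A'.natAbs + B'.natAbs + 1)
  have h3 := h (-(A.natAbs + B.natAbs + A'.natAbs + B'.natAbs + 1))
  have h4 := h' (-(A.natAbs + B.natAbs + A'.natAbs + B'.natAbs + 1))
  omega

namespace Line

variable (l : Line M)

theorem exists_vee (u : X) :
    ∃ A B : ℤ, ∀ k : ℤ, (M.d u (l.y k) : ℤ) = max (A + k) (B - k) := by
  have up : ∀ k : ℤ, (M.d u (l.y 0) : ℤ) + 1 ≤ k → (M.d u (l.y (k+1)) : ℤ) = M.d u (l.y k) + 1 := by
    intro k hk
    have a := M.fp u (l.y k) (l.y 0) (l.y (k+1))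
    have b := M.tri u (l.y k) (l.y (k+1))
    rw [l.hy, l.hy, l.hy] at a
    rw [l.hy] at b
    omega
  have dn : ∀ k : ℤ, k ≤ -((M.d u (l.y 0) : ℤ) + 1) →
      (M.d u (l.y (k-1)) : ℤ) = M.d u (l.y k) + 1 := by
    intro k hk
    have a := M.fp u (l.y k) (l.y 0) (l.y (k-1))
    have b := M.tri u (l.y k) (l.y (k-1))
    rw [l.hy, l.hy, l.hy] at a
    rw [l.hy] at b
    omega
  obtain ⟨N, hN⟩ : ∃ N : ℤ, N = (M.d u (l.y 0) : ℤ) + 1 := ⟨_, rfl⟩
  rw [← hN] at up dn
  have hup : ∀ k : ℤ, N ≤ k → (M.d u (l.y k) : ℤ) = (M.d u (l.y N) : ℤ) - N + k := by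
    intro k hk
    induction k, hk using Int.leInduction with
    | base => omega
    | succ n hn ih =>
      rw [up n hn, ih]
      omega
  have hdn : ∀ k : ℤ, k ≤ -N → (M.d u (l.y k) : ℤ) = (M.d u (l.y (-N)) : ℤ) - N - k := by
    intro k hk
    induction k, hk using Int.leInductionDown with
    | base => omega
    | pred n hn ih =>
      rw [dn n hn, ih]
      omega
  refine ⟨(M.d u (l.y N) : ℤ) - N, (M.d u (l.y (-N)) : ℤ) - N, ?_⟩
  intro k
  obtain ⟨K, hK, hK1, hK2⟩ : ∃ K : ℤ, N ≤ K ∧ k ≤ K ∧ -K ≤ k :=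
    ⟨N.natAbs + k.natAbs, by omega, by omega, by omega⟩
  have h1 := hup K hK
  have h2 := hdn (-K) (by omega)
  have a := M.fp u (l.y k) (l.y (-K)) (l.y K)
  have b := M.tri u (l.y k) (l.y K)
  have c := M.tri u (l.y k) (l.y (-K))
  rw [l.hy, l.hy, l.hy] at a
  rw [l.hy] at b c
  omega

noncomputable def A (u : X) : ℤ := (l.exists_vee u).choose

noncomputable def B (u : X) : ℤ := (l.exists_vee u).choose_spec.choose

theorem vee (u : X) (k : ℤ) : (M.d u (l.y k) : ℤ) = max (l.A u + k) (l.B u - k) :=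
  (l.exists_vee u).choose_spec.choose_spec k

/-- twice the position of the projection of `u` to the line -/
noncomputable def pr (u : X) : ℤ := l.B u - l.A u

theorem AB_y (m : ℤ) : l.A (l.y m) = -m ∧ l.B (l.y m) = m := by
  refine vee_unique (f := fun k => (M.d (l.y m) (l.y k) : ℤ)) (l.vee (l.y m)) ?_
  intro k
  simp only [l.hy]
  omega

theorem pr_y (m : ℤ) : l.pr (l.y m) = 2 * m := by
  have := l.AB_y m
  unfold pr
  omega

theorem e_nonneg (u : X) : 0 ≤ l.A u + l.B u := by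
  obtain ⟨K, h1, h2⟩ : ∃ K : ℤ, l.B u - K ≤ l.A u + K ∧ l.A u - K ≤ l.B u + K ∧ 0 ≤ K :=
    ⟨(l.A u).natAbs + (l.B u).natAbs, by omega, by omega, by omega⟩
  have a := l.vee u K
  have b := l.vee u (-K)
  have c := M.tri (l.y K) u (l.y (-K))
  rw [l.hy, M.d_comm (l.y K) u] at c
  omega

theorem on_of_e (u : X) (h : l.A u + l.B u = 0) : u = l.y (l.B u) := by
  apply M.d_eq
  have := l.vee u (l.B u)
  omega

theorem A_lip (u v : X) : l.A u ≤ l.A v + M.d u v := by
  obtain ⟨K, h1, h2⟩ : ∃ K : ℤ, l.B u - K ≤ l.A u + K ∧ l.B v - K ≤ l.A v + K :=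
    ⟨(l.A u).natAbs + (l.B u).natAbs + (l.A v).natAbs + (l.B v).natAbs, by omega, by omega⟩
  have a := l.vee u K
  have b := l.vee v K
  have c := M.tri u v (l.y K)
  omega

theorem B_lip (u v : X) : l.B u ≤ l.B v + M.d u v := by
  obtain ⟨K, h1, h2⟩ : ∃ K : ℤ, l.A u - K ≤ l.B u + K ∧ l.A v - K ≤ l.B v + K :=
    ⟨(l.A u).natAbs + (l.B u).natAbs + (l.A v).natAbs + (l.B v).natAbs, by omega, by omega⟩
  have a := l.vee u (-K)
  have b := l.vee v (-K)
  have c := M.tri u v (l.y (-K))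
  omega

theorem pr_lip (u v : X) : (l.pr u - l.pr v).natAbs ≤ 2 * M.d u v := by
  have a := l.A_lip u v
  have b := l.A_lip v u
  have c := l.B_lip u v
  have d := l.B_lip v u
  rw [M.d_comm v u] at b d
  unfold pr
  omega

theorem d_of_lt (u v : X) (h : l.pr u < l.pr v) : (M.d u v : ℤ) = l.A u + l.B v := by
  unfold pr at h
  obtain ⟨K, h1, h2, h3, h4, h5⟩ : ∃ K : ℤ, l.B u - K ≤ l.A u + K ∧ l.B v - K ≤ l.A v + K ∧
      l.A u - K ≤ l.B u + K ∧ l.A v - K ≤ l.B v + K ∧ 0 ≤ K :=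
    ⟨(l.A u).natAbs + (l.B u).natAbs + (l.A v).natAbs + (l.B v).natAbs, by omega, by omega,
      by omega, by omega, by omega⟩
  have a := l.vee u K
  have b := l.vee v K
  have c := l.vee u (-K)
  have d := l.vee v (-K)
  have e := M.fp u v (l.y (-K)) (l.y K)
  have f := M.fp u (l.y K) v (l.y (-K))
  rw [l.hy] at e
  rw [M.d_comm (l.y K) (l.y (-K)), l.hy, M.d_comm (l.y K) v] at f
  omega

theorem adj_off (u v : X) (h : M.d u v = 1) (hu : ∀ k, u ≠ l.y k) (hv : ∀ k, v ≠ l.y k) :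
    l.pr u = l.pr v := by
  have eu := l.e_nonneg u
  have ev := l.e_nonneg v
  have eu' : l.A u + l.B u ≠ 0 := fun h => hu _ (l.on_of_e u h)
  have ev' : l.A v + l.B v ≠ 0 := fun h => hv _ (l.on_of_e v h)
  rcases lt_trichotomy (l.pr u) (l.pr v) with h1 | h1 | h1
  · exfalso
    have := l.d_of_lt u v h1
    unfold pr at h1
    omega
  · exact h1
  · exfalso
    have := l.d_of_lt v u h1
    rw [M.d_comm] at this
    unfold pr at h1
    omega

/-- Behrstock inequality -/
theorem beh (m : Line M) (v : X) :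
    (∃ k, (l.pr v - l.pr (m.y k)).natAbs ≤ 1) ∨ (∃ k, m.pr v = m.pr (l.y k)) := by
  by_cases hc : ∃ k, (l.pr v - l.pr (m.y k)).natAbs ≤ 1
  · exact Or.inl hc
  right
  push Not at hc
  have hstep : ∀ k, (l.pr (m.y k) - l.pr (m.y (k+1))).natAbs ≤ 2 := by
    intro k
    have := l.pr_lip (m.y k) (m.y (k+1))
    rw [m.hy] at this
    omega
  rcases lt_or_ge (l.pr v) (l.pr (m.y 0)) with h0 | h0
  · have hall : ∀ k, l.pr v < l.pr (m.y k) := by
      intro k
      induction k using Int.induction_on with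
      | zero => exact h0
      | succ i ih =>
        have := hstep i
        have := hc i
        have := hc (i+1)
        omega
      | pred i ih =>
        have a := hstep (-i-1)
        have := hc (-i)
        have := hc (-i-1)
        rw [sub_add_cancel] at a
        omega
    refine ⟨l.pr v / 2, ?_⟩
    have hw := l.pr_y (l.pr v / 2)
    have hAB := l.AB_y (l.pr v / 2)
    obtain ⟨w, hwd⟩ : ∃ w, w = l.y (l.pr v / 2) := ⟨_, rfl⟩
    rw [← hwd] at hw hAB ⊢
    have key : ∀ k, (M.d v (m.y k) : ℤ) = M.d w (m.y k) + (l.A v - l.A w) := by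
      intro k
      have h1 := hall k
      rw [l.d_of_lt v (m.y k) h1, l.d_of_lt w (m.y k) (by omega)]
      omega
    have := vee_unique (f := fun k => (M.d v (m.y k) : ℤ)) (A := m.A v) (B := m.B v)
      (A' := m.A w + (l.A v - l.A w)) (B' := m.B w + (l.A v - l.A w)) (m.vee v) (by
        intro k
        simp only [key k, m.vee w k]
        omega)
    unfold pr
    omega
  · have hall : ∀ k, l.pr (m.y k) < l.pr v := by
      intro k
      induction k using Int.induction_on with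
      | zero =>
        have := hc 0
        omega
      | succ i ih =>
        have := hstep i
        have := hc i
        have := hc (i+1)
        omega
      | pred i ih =>
        have a := hstep (-i-1)
        have := hc (-i)
        have := hc (-i-1)
        rw [sub_add_cancel] at a
        omega
    refine ⟨(l.pr v + 1) / 2, ?_⟩
    have hw := l.pr_y ((l.pr v + 1) / 2)
    obtain ⟨w, hwd⟩ : ∃ w, w = l.y ((l.pr v + 1) / 2) := ⟨_, rfl⟩
    rw [← hwd] at hw ⊢
    have key : ∀ k, (M.d v (m.y k) : ℤ) = M.d w (m.y k) + (l.B v - l.B w) := by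
      intro k
      have h1 := hall k
      rw [M.d_comm v, M.d_comm w, l.d_of_lt (m.y k) v h1, l.d_of_lt (m.y k) w (by omega)]
      omega
    have := vee_unique (f := fun k => (M.d v (m.y k) : ℤ)) (A := m.A v) (B := m.B v)
      (A' := m.A w + (l.B v - l.B w)) (B' := m.B w + (l.B v - l.B w)) (m.vee v) (by
        intro k
        simp only [key k, m.vee w k]
        omega)
    unfold pr
    omega

theorem geod_unique (u v w w' : X) (h1 : M.d u w = M.d u w') (h2 : M.d u w + M.d w v = M.d u v)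
    (h3 : M.d u w' + M.d w' v = M.d u v) : w = w' := by
  apply M.d_eq
  have := M.fp w w' u v
  rw [M.d_comm w u, M.d_comm w' u] at this
  omega

theorem overlap_aux (m : Line M) (a b : ℤ) (μ : ℕ)
    (h : l.pr (m.y a) + (2 * μ + 1) ≤ l.pr (m.y b)) :
    ∃ k k' ε : ℤ, (ε = 1 ∨ ε = -1) ∧ ∀ e : ℕ, e ≤ μ → l.y (k + e) = m.y (k' + ε * e) := by
  obtain ⟨u, hu⟩ : ∃ u, u = m.y a := ⟨_, rfl⟩
  obtain ⟨v, hv⟩ : ∃ v, v = m.y b := ⟨_, rfl⟩
  have hd := l.d_of_lt u v (by rw [hu, hv]; omega)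
  have hab : (M.d u v : ℤ) = (a - b).natAbs := by rw [hu, hv, m.hy]
  rw [← hu, ← hv] at h
  unfold pr at h
  obtain ⟨k, hk⟩ : ∃ k : ℤ, k = (l.B u - l.A u + 1) / 2 := ⟨_, rfl⟩
  have gu : ∀ e : ℕ, e ≤ μ → (M.d u (l.y (k + e)) : ℤ) = l.A u + (k + e) := by
    intro e he
    rw [l.vee u]
    omega
  have gv : ∀ e : ℕ, e ≤ μ → (M.d v (l.y (k + e)) : ℤ) = l.B v - (k + e) := by
    intro e he
    rw [l.vee v]
    omega
  rcases le_total a b with hle | hle
  · refine ⟨k, a + l.A u + k, 1, Or.inl rfl, ?_⟩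
    intro e he
    have g1 := gu e he
    have g2 := gv e he
    apply geod_unique (M := M) u v
    · have : (M.d u (m.y (a + l.A u + k + 1 * e)) : ℤ) = (a - (a + l.A u + k + 1 * e)).natAbs := by
        rw [hu, m.hy]
      omega
    · rw [M.d_comm _ v]
      omega
    · have h1 : (M.d u (m.y (a + l.A u + k + 1 * e)) : ℤ) = (a - (a + l.A u + k + 1 * e)).natAbs := by
        rw [hu, m.hy]
      have h2 : (M.d (m.y (a + l.A u + k + 1 * e)) v : ℤ) = ((a + l.A u + k + 1 * e) - b).natAbs := by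
        rw [hv, m.hy]
      omega
  · refine ⟨k, a - l.A u - k, -1, Or.inr rfl, ?_⟩
    intro e he
    have g1 := gu e he
    have g2 := gv e he
    apply geod_unique (M := M) u v
    · have : (M.d u (m.y (a - l.A u - k + -1 * e)) : ℤ) = (a - (a - l.A u - k + -1 * e)).natAbs := by
        rw [hu, m.hy]
      omega
    · rw [M.d_comm _ v]
      omega
    · have h1 : (M.d u (m.y (a - l.A u - k + -1 * e)) : ℤ) = (a - (a - l.A u - k + -1 * e)).natAbs := by
        rw [hu, m.hy]
      have h2 : (M.d (m.y (a - l.A u - k + -1 * e)) v : ℤ) = ((a - l.A u - k + -1 * e) - b).natAbs := by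
        rw [hv, m.hy]
      omega

theorem overlap (m : Line M) (a b : ℤ) (μ : ℕ)
    (h : 2 * μ + 1 ≤ (l.pr (m.y a) - l.pr (m.y b)).natAbs) :
    ∃ k k' ε : ℤ, (ε = 1 ∨ ε = -1) ∧ ∀ e : ℕ, e ≤ μ → l.y (k + e) = m.y (k' + ε * e) := by
  rcases le_total (l.pr (m.y a)) (l.pr (m.y b)) with h1 | h1
  · exact l.overlap_aux m a b μ (by omega)
  · exact l.overlap_aux m b a μ (by omega)

theorem isom_int (φ : ℤ → ℤ) (h : ∀ k j, (φ k - φ j).natAbs = (k - j).natAbs) :
    ∃ c ε : ℤ, (ε = 1 ∨ ε = -1) ∧ ∀ k, φ k = c + ε * k := by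
  have h1 := h 1 0
  have : φ 1 = φ 0 + 1 ∨ φ 1 = φ 0 - 1 := by omega
  rcases this with h2 | h2
  · refine ⟨φ 0, 1, Or.inl rfl, ?_⟩
    intro k
    have h3 := h k 0
    have h4 := h k 1
    omega
  · refine ⟨φ 0, -1, Or.inr rfl, ?_⟩
    intro k
    have h3 := h k 0
    have h4 := h k 1
    omega

theorem param (m : Line M) (h : Set.range l.y ⊆ Set.range m.y) :
    ∃ c ε : ℤ, (ε = 1 ∨ ε = -1) ∧ ∀ k, l.y k = m.y (c + ε * k) := by
  have h1 : ∀ k, ∃ j, m.y j = l.y k := fun k => h ⟨k, rfl⟩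
  choose φ hφ using h1
  obtain ⟨c, ε, hε, hc⟩ := isom_int φ (by
    intro k j
    rw [← m.hy, hφ, hφ, l.hy])
  exact ⟨c, ε, hε, fun k => by rw [← hc, hφ]⟩

theorem pr_trans (m : Line M) (c ε : ℤ) (hε : ε = 1 ∨ ε = -1) (u u' : X)
    (h : ∀ k, M.d u' (m.y k) = M.d u (l.y (c + ε * k))) : m.pr u' = ε * (l.pr u - 2 * c) := by
  rcases hε with rfl | rfl
  · have := vee_unique (f := fun k => (M.d u' (m.y k) : ℤ)) (A := m.A u') (B := m.B u')
      (A' := l.A u + c) (B' := l.B u - c) (m.vee u') (by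
        intro k
        simp only [h k, l.vee u]
        omega)
    unfold pr
    omega
  · have := vee_unique (f := fun k => (M.d u' (m.y k) : ℤ)) (A := m.A u') (B := m.B u')
      (A' := l.B u - c) (B' := l.A u + c) (m.vee u') (by
        intro k
        simp only [h k, l.vee u]
        omega)
    unfold pr
    omega

end Line

end Pool.Agent.Helper844.SCV.SC
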