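import Mathlib

/-! Small cancellation without diagrams: the windmill argument for projection systems
(plan of helper844, doc 955). -/

set_option autoImplicit false

namespace Pool.Agent.Helper844.SCV.SC

open Relation

/-- a projection system -/
structure Sys (G V L : Type*) [Group G] [MulAction G V] [MulAction G L] where
  adj : V → V → Prop
  on : L → V → Prop
  d : L → V → V → ℕ
  rot : L → Subgroup G
  th : L → ℕ
  T : L → ℕ
  adj_symm : ∀ u v, adj u v → adj v u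
  adj_smul : ∀ (g : G) u v, adj u v → adj (g • u) (g • v)
  conn : ∀ u v, ReflTransGen adj u v
  on_smul : ∀ (g : G) Y v, on Y v → on (g • Y) (g • v)
  d_self : ∀ Y u, d Y u u = 0
  d_comm : ∀ Y u v, d Y u v = d Y v u
  d_tri : ∀ Y u v w, d Y u w ≤ d Y u v + d Y v w
  d_smul : ∀ (g : G) Y u v, d (g • Y) (g • u) (g • v) = d Y u v
  d_adj : ∀ Y u v, adj u v → d Y u v ≤ 2
  d_adj0 : ∀ Y u v, adj u v → ¬ on Y u → ¬ on Y v → d Y u v = 0
  line_ne : ∀ Y, ∃ v, on Y v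
  line_conn : ∀ Y u v, on Y u → on Y v → ReflTransGen (fun a b => adj a b ∧ on Y b) u v
  th_smul : ∀ (g : G) Y, th (g • Y) = th Y
  T_smul : ∀ (g : G) Y, T (g • Y) = T Y
  hT : ∀ Y, 5 * th Y + 20 ≤ T Y
  ov : ∀ Y Z u v, Y ≠ Z → on Z u → on Z v → d Y u v ≤ th Y
  beh : ∀ Y Z v, Y ≠ Z → (∃ w, on Z w ∧ d Y v w ≤ 1) ∨ (∃ w, on Y w ∧ d Z v w = 0)
  rot_conj : ∀ (g : G) Y r, r ∈ rot Y → g * r * g⁻¹ ∈ rot (g • Y)
  rot_fix : ∀ Y r, r ∈ rot Y → r • Y = Y
  rot_big : ∀ Y r v, r ∈ rot Y → r ≠ 1 → T Y ≤ d Y v (r • v)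

variable {G V L : Type*} [Group G] [MulAction G V] [MulAction G L] (S : Sys G V L) (x0 : V)

/-- a stage of the windmill -/
structure State where
  H : Subgroup G
  W : Set V
  x0_mem : x0 ∈ W
  inv : ∀ h ∈ H, ∀ w ∈ W, h • w ∈ W
  conn : ∀ w ∈ W, ReflTransGen (fun a b => S.adj a b ∧ b ∈ W) x0 w
  diam : ∀ Y, S.rot Y ≤ H ∨ ∀ u ∈ W, ∀ v ∈ W, S.d Y u v ≤ 2 * S.th Y
  claim : ∀ n ∈ H, n ≠ 1 → ∃ Y, S.T Y ≤ S.d Y x0 (n • x0) + (4 * S.th Y + 4)

variable {S} {x0}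

theorem rtg_mono {r s : V → V → Prop} (h : ∀ a b, r a b → s a b) {a b : V}
    (hab : ReflTransGen r a b) : ReflTransGen s a b := ReflTransGen.mono h a b hab

theorem rtg_smul {r s : V → V → Prop} (g : G) (h : ∀ a b, r a b → s (g • a) (g • b)) {a b : V}
    (hab : ReflTransGen r a b) : ReflTransGen s (g • a) (g • b) := by
  induction hab with
  | refl => exact ReflTransGen.refl
  | tail _ hbc ih => exact ih.tail (h _ _ hbc)

/-- reversing a path inside a set -/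
theorem rtg_symm {W : Set V} {a b : V} (ha : a ∈ W)
    (hab : ReflTransGen (fun a b => S.adj a b ∧ b ∈ W) a b) :
    ReflTransGen (fun a b => S.adj a b ∧ b ∈ W) b a := by
  induction hab with
  | refl => exact ReflTransGen.refl
  | @tail b c hab hbc ih =>
    have hb : b ∈ W := by
      rcases ReflTransGen.cases_tail hab with h | ⟨d, _, h⟩
      · rw [h]; exact ha
      · exact h.2
    exact ReflTransGen.head ⟨S.adj_symm _ _ hbc.1, hb⟩ ih

theorem rot_le_conj (g : G) (Y : L) (H : Subgroup G) (hg : g ∈ H) (h : S.rot Y ≤ H) :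
    S.rot (g • Y) ≤ H := by
  intro r hr
  have h1 := S.rot_conj g⁻¹ _ r hr
  rw [inv_smul_smul, inv_inv] at h1
  have h2 := h h1
  have : r = g * (g⁻¹ * r * g) * g⁻¹ := by group
  rw [this]
  exact H.mul_mem (H.mul_mem hg h2) (H.inv_mem hg)

theorem rot_le_conj_iff (g : G) (Y : L) (H : Subgroup G) (hg : g ∈ H) :
    S.rot (g • Y) ≤ H ↔ S.rot Y ≤ H := by
  constructor
  · intro h
    have := rot_le_conj (S := S) g⁻¹ (g • Y) H (H.inv_mem hg) h
    rwa [inv_smul_smul] at this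
  · exact rot_le_conj g Y H hg

theorem on_smul_iff (g : G) (Y : L) (v : V) : S.on (g • Y) (g • v) ↔ S.on Y v := by
  constructor
  · intro h
    have := S.on_smul g⁻¹ _ _ h
    rwa [inv_smul_smul, inv_smul_smul] at this
  · exact S.on_smul g Y v

theorem on_inv (g : G) (Y : L) (v : V) : S.on Y (g • v) ↔ S.on (g⁻¹ • Y) v := by
  rw [← on_smul_iff (S := S) g (g⁻¹ • Y) v, smul_inv_smul]

theorem d_inv (g : G) (Y : L) (u v : V) : S.d Y (g • u) (g • v) = S.d (g⁻¹ • Y) u v := by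
  rw [← S.d_smul g (g⁻¹ • Y) u v, smul_inv_smul]

section step

variable (s : State S x0)

def W1 : Set V := {v | v ∈ s.W ∨ ∃ w ∈ s.W, S.adj w v}

def AA : Set L := {Y | ¬ S.rot Y ≤ s.H ∧ ∃ v ∈ W1 s, S.on Y v}

def EE : Set V := {v | v ∈ W1 s ∨ ∃ Y ∈ AA s, S.on Y v}

def EY (Y : L) : Set V := {v | v ∈ W1 s ∨ ∃ Y' ∈ AA s, Y' ≠ Y ∧ S.on Y' v}

def H' : Subgroup G := Subgroup.closure {r | r ∈ s.H ∨ ∃ Y ∈ AA s, r ∈ S.rot Y}

def W' : Set V := {v | ∃ h ∈ H' s, ∃ e ∈ EE s, v = h • e}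

theorem H_le : s.H ≤ H' s := fun _ hr => Subgroup.subset_closure (Or.inl hr)

theorem rot_le_H' (Y : L) (hY : Y ∈ AA s) : S.rot Y ≤ H' s :=
  fun _ hr => Subgroup.subset_closure (Or.inr ⟨Y, hY, hr⟩)

theorem W1_inv {h : G} (hh : h ∈ s.H) {v : V} (hv : v ∈ W1 s) : h • v ∈ W1 s := by
  rcases hv with hv | ⟨w, hw, hwv⟩
  · exact Or.inl (s.inv h hh v hv)
  · exact Or.inr ⟨h • w, s.inv h hh w hw, S.adj_smul h _ _ hwv⟩

theorem AA_inv {h : G} (hh : h ∈ s.H) {Y : L} (hY : Y ∈ AA s) : h • Y ∈ AA s := by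
  obtain ⟨h1, v, hv, hon⟩ := hY
  exact ⟨fun hle => h1 ((rot_le_conj_iff h Y s.H hh).1 hle), h • v, W1_inv s hh hv, S.on_smul h Y v hon⟩

theorem diam_W1 {Y : L} (hY : ¬ S.rot Y ≤ s.H) {u v : V} (hu : u ∈ W1 s) (hv : v ∈ W1 s) :
    S.d Y u v ≤ 2 * S.th Y + 4 := by
  have hd := (s.diam Y).resolve_left hY
  have near : ∀ u ∈ W1 s, ∃ w ∈ s.W, S.d Y u w ≤ 2 := by
    intro u hu
    rcases hu with hu | ⟨w, hw, hwu⟩
    · exact ⟨u, hu, by rw [S.d_self]; omega⟩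
    · exact ⟨w, hw, by rw [S.d_comm]; exact S.d_adj Y _ _ hwu⟩
  obtain ⟨u', hu', h1⟩ := near u hu
  obtain ⟨v', hv', h2⟩ := near v hv
  have h3 := hd u' hu' v' hv'
  have h4 := S.d_tri Y u u' v
  have h5 := S.d_tri Y u' v' v
  rw [S.d_comm Y v' v] at h5
  omega

theorem diam_EY {Y : L} (hY : Y ∈ AA s) {u v : V} (hu : u ∈ EY s Y) (hv : v ∈ EY s Y) :
    S.d Y u v ≤ 4 * S.th Y + 4 := by
  have near : ∀ u ∈ EY s Y, ∃ w ∈ W1 s, S.d Y u w ≤ S.th Y := by
    intro u hu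
    rcases hu with hu | ⟨Y', hY', hne, hon⟩
    · exact ⟨u, hu, by rw [S.d_self]; omega⟩
    · obtain ⟨_, w, hw, hon'⟩ := hY'
      exact ⟨w, hw, S.ov Y Y' u w (Ne.symm hne) hon hon'⟩
  obtain ⟨u', hu', h1⟩ := near u hu
  obtain ⟨v', hv', h2⟩ := near v hv
  have h3 := diam_W1 s hY.1 hu' hv'
  have h4 := S.d_tri Y u u' v
  have h5 := S.d_tri Y u' v' v
  rw [S.d_comm Y v' v] at h5
  omega

/-- lines outside `H'` miss the translates of `W1` -/
theorem miss {Z : L} (hZ : ¬ S.rot Z ≤ H' s) {n : G} (hn : n ∈ H' s) {v : V} (hv : v ∈ W1 s) :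
    ¬ S.on Z (n • v) := by
  intro hon
  rw [on_inv] at hon
  have h1 : S.rot (n⁻¹ • Z) ≤ H' s := by
    by_cases h : S.rot (n⁻¹ • Z) ≤ s.H
    · exact h.trans (H_le s)
    · exact rot_le_H' s _ ⟨h, v, hv, hon⟩
  apply hZ
  exact (rot_le_conj_iff n⁻¹ Z (H' s) ((H' s).inv_mem hn)).1 h1

theorem W1_conn {v : V} (hv : v ∈ W1 s) :
    ReflTransGen (fun a b => S.adj a b ∧ b ∈ W1 s) x0 v := by
  rcases hv with hv | ⟨w, hw, hwv⟩
  · exact rtg_mono (fun a b h => ⟨h.1, Or.inl h.2⟩) (s.conn v hv)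
  · exact (rtg_mono (fun a b h => ⟨h.1, Or.inl h.2⟩) (s.conn w hw)).tail ⟨hwv, Or.inr ⟨w, hw, hwv⟩⟩

theorem d_zero_x0 {Z : L} (hZ : ¬ S.rot Z ≤ H' s) {n : G} (hn : n ∈ H' s) {v : V} (hv : v ∈ W1 s) :
    S.d Z (n • x0) (n • v) = 0 := by
  have key : ∀ v, ReflTransGen (fun a b => S.adj a b ∧ b ∈ W1 s) x0 v →
      v ∈ W1 s ∧ S.d Z (n • x0) (n • v) = 0 := by
    intro v h
    induction h with
    | refl => exact ⟨Or.inl s.x0_mem, S.d_self _ _⟩
    | @tail b c hab hbc ih =>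
      refine ⟨hbc.2, ?_⟩
      have h1 := S.d_adj0 Z (n • b) (n • c) (S.adj_smul n _ _ hbc.1) (miss s hZ hn ih.1)
        (miss s hZ hn hbc.2)
      have h2 := S.d_tri Z (n • x0) (n • b) (n • c)
      omega
  exact (key v (W1_conn s hv)).2

theorem d_zero_W1 {Z : L} (hZ : ¬ S.rot Z ≤ H' s) {n : G} (hn : n ∈ H' s) {u v : V}
    (hu : u ∈ W1 s) (hv : v ∈ W1 s) : S.d Z (n • u) (n • v) = 0 := by
  have h1 := d_zero_x0 s hZ hn hu
  have h2 := d_zero_x0 s hZ hn hv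
  have h3 := S.d_tri Z (n • u) (n • x0) (n • v)
  rw [S.d_comm Z (n • u) (n • x0)] at h3
  omega

/-- chains of points -/
inductive Ch : Option L → V → Prop
  | base {v : V} : v ∈ W1 s → Ch none v
  | line {Y : L} {v : V} : Y ∈ AA s → S.on Y v → Ch (some Y) v
  | turn {Y : L} {o : Option L} {r : G} {v : V} : Y ∈ AA s → r ∈ S.rot Y → r ≠ 1 → Ch o v →
      o ≠ some Y → Ch (some Y) (r • v)

/-- chains of group elements -/
inductive El : Option L → G → Prop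
  | base {h : G} : h ∈ s.H → El none h
  | turn {Y : L} {o : Option L} {r : G} {n : G} : Y ∈ AA s → r ∈ S.rot Y → r ≠ 1 → El o n →
      o ≠ some Y → El (some Y) (r * n)

variable {s}

theorem Ch.H_smul {h : G} (hh : h ∈ s.H) {o : Option L} {v : V} (hc : Ch s o v) :
    Ch s (o.map (h • ·)) (h • v) := by
  induction hc with
  | base hv => exact Ch.base (W1_inv s hh hv)
  | line hY hon => exact Ch.line (AA_inv s hh hY) (S.on_smul h _ _ hon)
  | @turn Y o r v hY hr hr1 _ hne ih =>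
    have e : h • r • v = (h * r * h⁻¹) • (h • v) := by simp [mul_smul]
    rw [e]
    refine Ch.turn (AA_inv s hh hY) (S.rot_conj h Y r hr) ?_ ih ?_
    · intro h1
      apply hr1
      have : r = h⁻¹ * (h * r * h⁻¹) * h := by group
      rw [this, h1]; group
    · intro h1
      apply hne
      rcases o with _ | Y'
      · simp at h1
      · simp only [Option.map_some, Option.some.injEq] at h1
        rw [smul_left_cancel h h1]

theorem El.H_mul {h : G} (hh : h ∈ s.H) {o : Option L} {n : G} (hc : El s o n) :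
    El s (o.map (h • ·)) (h * n) := by
  induction hc with
  | base hv => exact El.base (s.H.mul_mem hh hv)
  | @turn Y o r n hY hr hr1 _ hne ih =>
    have e : h * (r * n) = (h * r * h⁻¹) * (h * n) := by group
    rw [e]
    refine El.turn (AA_inv s hh hY) (S.rot_conj h Y r hr) ?_ ih ?_
    · intro h1
      apply hr1
      have : r = h⁻¹ * (h * r * h⁻¹) * h := by group
      rw [this, h1]; group
    · intro h1
      apply hne
      rcases o with _ | Y'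
      · simp at h1
      · simp only [Option.map_some, Option.some.injEq] at h1
        rw [smul_left_cancel h h1]

theorem Ch.rot_smul {Y : L} (hY : Y ∈ AA s) {r : G} (hr : r ∈ S.rot Y) {o : Option L} {v : V}
    (hc : Ch s o v) : ∃ o', Ch s o' (r • v) := by
  by_cases hr1 : r = 1
  · subst hr1
    exact ⟨o, by rwa [one_smul]⟩
  by_cases ho : o = some Y
  · subst ho
    cases hc with
    | line _ hon =>
      refine ⟨some Y, Ch.line hY ?_⟩
      have := S.on_smul r Y v hon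
      rwa [S.rot_fix Y r hr] at this
    | @turn _ o' r' v' _ hr' hr1' hc' hne =>
      rw [← mul_smul]
      by_cases h1 : r * r' = 1
      · rw [h1, one_smul]
        exact ⟨o', hc'⟩
      · exact ⟨some Y, Ch.turn hY ((S.rot Y).mul_mem hr hr') h1 hc' hne⟩
  · exact ⟨some Y, Ch.turn hY hr hr1 hc ho⟩

theorem El.rot_mul {Y : L} (hY : Y ∈ AA s) {r : G} (hr : r ∈ S.rot Y) {o : Option L} {n : G}
    (hc : El s o n) : ∃ o', El s o' (r * n) := by
  by_cases hr1 : r = 1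
  · subst hr1
    exact ⟨o, by rwa [one_mul]⟩
  by_cases ho : o = some Y
  · subst ho
    cases hc with
    | @turn _ o' r' n' _ hr' hr1' hc' hne =>
      rw [← mul_assoc]
      by_cases h1 : r * r' = 1
      · rw [h1, one_mul]
        exact ⟨o', hc'⟩
      · exact ⟨some Y, El.turn hY ((S.rot Y).mul_mem hr hr') h1 hc' hne⟩
  · exact ⟨some Y, El.turn hY hr hr1 hc ho⟩

theorem H'_ind {P : G → Prop} (h1 : P 1) (hH : ∀ h ∈ s.H, ∀ x, P x → P (h * x))
    (hr : ∀ Y ∈ AA s, ∀ r ∈ S.rot Y, ∀ x, P x → P (r * x)) {n : G} (hn : n ∈ H' s) : P n := by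
  induction hn using Subgroup.closure_induction_left with
  | one => exact h1
  | mul_left x hx y hy ih =>
    rcases hx with hx | ⟨Y, hY, hx⟩
    · exact hH x hx y ih
    · exact hr Y hY x hx y ih
  | inv_mul_cancel x hx y hy ih =>
    rcases hx with hx | ⟨Y, hY, hx⟩
    · exact hH _ (s.H.inv_mem hx) y ih
    · exact hr Y hY _ ((S.rot Y).inv_mem hx) y ih

theorem W'_ch {v : V} (hv : v ∈ W' s) : ∃ o, Ch s o v := by
  obtain ⟨h, hh, e, he, rfl⟩ := hv
  refine H'_ind (s := s) (P := fun n => ∃ o, Ch s o (n • e)) ?_ ?_ ?_ hh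
  · rw [one_smul]
    rcases he with he | ⟨Y, hY, hon⟩
    · exact ⟨none, Ch.base he⟩
    · exact ⟨some Y, Ch.line hY hon⟩
  · rintro h hh x ⟨o, ho⟩
    rw [mul_smul]
    exact ⟨_, ho.H_smul hh⟩
  · rintro Y hY r hr x ⟨o, ho⟩
    rw [mul_smul]
    exact ho.rot_smul hY hr

theorem H'_el {n : G} (hn : n ∈ H' s) : ∃ o, El s o n := by
  refine H'_ind (s := s) (P := fun n => ∃ o, El s o n) ?_ ?_ ?_ hn
  · exact ⟨none, El.base s.H.one_mem⟩
  · rintro h hh x ⟨o, ho⟩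
    exact ⟨_, ho.H_mul hh⟩
  · rintro Y hY r hr x ⟨o, ho⟩
    exact ho.rot_mul hY hr

theorem El.ch {o : Option L} {n : G} (h : El s o n) {v : V} (hv : v ∈ W1 s) : Ch s o (n • v) := by
  induction h with
  | base hh => exact Ch.base (W1_inv s hh hv)
  | turn hY hr hr1 _ hne ih =>
    rw [mul_smul]
    exact Ch.turn hY hr hr1 ih hne

theorem d_rot {Y : L} {r : G} (hr : r ∈ S.rot Y) (u v : V) : S.d Y (r • u) (r • v) = S.d Y u v := by
  have := S.d_smul r Y u v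
  rwa [S.rot_fix Y r hr] at this

theorem Ch.proj {o : Option L} {v : V} (h : Ch s o v) :
    ∀ Y' ∈ AA s, some Y' ≠ o → ∃ w ∈ EY s Y', S.d Y' v w = 0 := by
  induction h with
  | @base v hv => exact fun Y' _ _ => ⟨v, Or.inl hv, S.d_self _ _⟩
  | @line Y v hY hon =>
    intro Y' hY' hne
    exact ⟨v, Or.inr ⟨Y, hY, fun h => hne (by rw [h]), hon⟩, S.d_self _ _⟩
  | @turn Y o r v hY hr hr1 _ hne ih =>
    intro Y' hY' hne'
    obtain ⟨w, hw, hvw⟩ := ih Y hY (Ne.symm hne)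
    have hYY : Y ≠ Y' := fun h => hne' (by rw [h])
    have h1 := d_rot hr v w
    have h2 := S.rot_big Y r w hr hr1
    rcases S.beh Y Y' (r • v) hYY with ⟨w', hon, hw'⟩ | ⟨w', hon, hw'⟩
    · exfalso
      have hw'E : w' ∈ EY s Y := Or.inr ⟨Y', hY', hYY.symm, hon⟩
      have h3 := diam_EY s hY hw hw'E
      have h4 := S.d_tri Y w w' (r • w)
      have h5 := S.d_tri Y w' (r • v) (r • w)
      rw [S.d_comm Y w' (r • v)] at h5
      have h6 := S.hT Y
      omega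
    · exact ⟨w', Or.inr ⟨Y, hY, hYY, hon⟩, hw'⟩

theorem far {Y : L} (hY : Y ∈ AA s) {u : V} (hu : u ∈ EY s Y) {o : Option L} {v : V}
    (hc : Ch s o v) (ho : o ≠ some Y) {r : G} (hr : r ∈ S.rot Y) (hr1 : r ≠ 1) :
    S.T Y ≤ S.d Y u (r • v) + (4 * S.th Y + 4) := by
  obtain ⟨w, hw, hvw⟩ := hc.proj Y hY (Ne.symm ho)
  have h1 := d_rot hr v w
  have h2 := S.rot_big Y r w hr hr1
  have h3 := diam_EY s hY hw hu
  have h4 := S.d_tri Y w u (r • w)
  have h5 := S.d_tri Y u (r • v) (r • w)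
  omega

theorem claim' {n : G} (hn : n ∈ H' s) (h1 : n ≠ 1) :
    ∃ Y, S.T Y ≤ S.d Y x0 (n • x0) + (4 * S.th Y + 4) := by
  obtain ⟨o, hel⟩ := H'_el hn
  cases hel with
  | base hh => exact s.claim n hh h1
  | @turn Y o r n hY hr hr1 hel hne =>
    refine ⟨Y, ?_⟩
    rw [mul_smul]
    exact far hY (Or.inl (Or.inl s.x0_mem)) (hel.ch (Or.inl s.x0_mem)) hne hr hr1

theorem rot_le_iff' {Z : L} {n : G} (hn : n ∈ H' s) (hZ : ¬ S.rot Z ≤ H' s) :
    ¬ S.rot (n • Z) ≤ H' s := fun h => hZ ((rot_le_conj_iff n Z _ hn).1 h)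

theorem Ch.fellow {o : Option L} {v : V} (h : Ch s o v) :
    ∀ Z, ¬ S.rot Z ≤ H' s → ∀ u ∈ EE s, ∃ g ∈ H' s, ∃ p ∈ EE s, ∃ q ∈ EE s,
      S.d Z u (g • p) = 0 ∧ S.d Z v (g • q) = 0 := by
  induction h with
  | @base v hv =>
    intro Z _ u hu
    exact ⟨1, (H' s).one_mem, u, hu, v, Or.inl hv, by rw [one_smul, S.d_self], by
      rw [one_smul, S.d_self]⟩
  | @line Y v hY hon =>
    intro Z _ u hu
    exact ⟨1, (H' s).one_mem, u, hu, v, Or.inr ⟨Y, hY, hon⟩, by rw [one_smul, S.d_self], by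
      rw [one_smul, S.d_self]⟩
  | @turn Y o r v hY hr hr1 hc hne ih =>
    intro Z hZ u hu
    have hrH : r ∈ H' s := rot_le_H' s Y hY hr
    have hrZ : ¬ S.rot (r⁻¹ • Z) ≤ H' s := rot_le_iff' ((H' s).inv_mem hrH) hZ
    have key : ∀ w, S.on Y w → ∃ g ∈ H' s, ∃ p ∈ EE s, ∃ q ∈ EE s,
        S.d Z w (g • p) = 0 ∧ S.d Z (r • v) (g • q) = 0 := by
      intro w hw
      have hw' : S.on Y (r⁻¹ • w) := by
        have := S.on_smul r⁻¹ Y w hw
        rwa [S.rot_fix Y r⁻¹ ((S.rot Y).inv_mem hr)] at this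
      obtain ⟨g, hg, p, hp, q, hq, h1, h2⟩ := ih (r⁻¹ • Z) hrZ (r⁻¹ • w) (Or.inr ⟨Y, hY, hw'⟩)
      refine ⟨r * g, (H' s).mul_mem hrH hg, p, hp, q, hq, ?_, ?_⟩
      · rw [← d_inv (S := S), smul_inv_smul, ← mul_smul] at h1
        exact h1
      · rw [← d_inv (S := S), ← mul_smul] at h2
        exact h2
    by_cases huY : S.on Y u
    · exact key u huY
    have huE : u ∈ EY s Y := by
      rcases hu with hu | ⟨Y', hY', hon⟩
      · exact Or.inl hu
      · exact Or.inr ⟨Y', hY', fun h => huY (h ▸ hon), hon⟩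
    have hYZ : Y ≠ Z := fun h => hZ (h ▸ rot_le_H' s Y hY)
    have hfar := far hY huE hc hne hr hr1
    rcases S.beh Y Z u hYZ with ⟨w1, hw1, hd1⟩ | ⟨w1, hw1, hd1⟩
    · rcases S.beh Y Z (r • v) hYZ with ⟨w2, hw2, hd2⟩ | ⟨w2, hw2, hd2⟩
      · exfalso
        have h1 := S.ov Y Z w1 w2 hYZ hw1 hw2
        have h2 := S.d_tri Y u w1 (r • v)
        have h3 := S.d_tri Y w1 w2 (r • v)
        rw [S.d_comm Y w2 (r • v)] at h3
        have h4 := S.hT Y
        omega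
      · exact ⟨1, (H' s).one_mem, u, hu, w2, Or.inr ⟨Y, hY, hw2⟩, by rw [one_smul, S.d_self], by
          rwa [one_smul]⟩
    · obtain ⟨g, hg, p, hp, q, hq, h1, h2⟩ := key w1 hw1
      refine ⟨g, hg, p, hp, q, hq, ?_, h2⟩
      have h3 := S.d_tri Z u w1 (g • p)
      omega

theorem EE_near {Z : L} (hZ : ¬ S.rot Z ≤ H' s) {g : G} (hg : g ∈ H' s) {e : V} (he : e ∈ EE s) :
    ∃ w ∈ W1 s, S.d Z (g • e) (g • w) ≤ S.th Z := by
  rcases he with he | ⟨Y, hY, hon⟩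
  · exact ⟨e, he, by rw [S.d_self]; omega⟩
  · obtain ⟨_, w, hw, hon'⟩ := id hY
    refine ⟨w, hw, S.ov Z (g • Y) _ _ ?_ (S.on_smul g Y e hon) (S.on_smul g Y w hon')⟩
    intro h
    apply hZ
    rw [h]
    exact rot_le_conj g Y _ hg (rot_le_H' s Y hY)

theorem EE_diam {Z : L} (hZ : ¬ S.rot Z ≤ H' s) {g : G} (hg : g ∈ H' s) {p q : V} (hp : p ∈ EE s)
    (hq : q ∈ EE s) : S.d Z (g • p) (g • q) ≤ 2 * S.th Z := by
  obtain ⟨w, hw, h1⟩ := EE_near hZ hg hp
  obtain ⟨w', hw', h2⟩ := EE_near hZ hg hq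
  have h3 := d_zero_W1 s hZ hg hw hw'
  have h4 := S.d_tri Z (g • p) (g • w) (g • q)
  have h5 := S.d_tri Z (g • w) (g • w') (g • q)
  rw [S.d_comm Z (g • w') (g • q)] at h5
  omega

theorem W'_inv {n : G} (hn : n ∈ H' s) {v : V} (hv : v ∈ W' s) : n • v ∈ W' s := by
  obtain ⟨h, hh, e, he, rfl⟩ := hv
  exact ⟨n * h, (H' s).mul_mem hn hh, e, he, by rw [mul_smul]⟩

theorem W'_diam {Z : L} (hZ : ¬ S.rot Z ≤ H' s) {u v : V} (hu : u ∈ W' s) (hv : v ∈ W' s) :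
    S.d Z u v ≤ 2 * S.th Z := by
  obtain ⟨h, hh, e, he, rfl⟩ := hu
  have hv' := W'_inv ((H' s).inv_mem hh) hv
  obtain ⟨o, ho⟩ := W'_ch hv'
  have hZ' := rot_le_iff' ((H' s).inv_mem hh) hZ
  obtain ⟨g, hg, p, hp, q, hq, h1, h2⟩ := ho.fellow (h⁻¹ • Z) hZ' e he
  have h3 := EE_diam hZ' hg hp hq
  have h4 := S.d_tri (h⁻¹ • Z) e (g • p) (h⁻¹ • v)
  have h5 := S.d_tri (h⁻¹ • Z) (g • p) (g • q) (h⁻¹ • v)
  rw [S.d_comm _ (g • q) (h⁻¹ • v)] at h5
  have h6 : S.d Z (h • e) v = S.d (h⁻¹ • Z) e (h⁻¹ • v) := by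
    rw [← d_inv (S := S), smul_inv_smul]
  rw [S.th_smul] at h3
  omega

theorem EE_sub {v : V} (hv : v ∈ EE s) : v ∈ W' s :=
  ⟨1, (H' s).one_mem, v, hv, by rw [one_smul]⟩

theorem W1_sub {v : V} (hv : v ∈ W1 s) : v ∈ W' s := EE_sub (Or.inl hv)

theorem path_W1 {v : V} (hv : v ∈ W1 s) :
    ReflTransGen (fun a b => S.adj a b ∧ b ∈ W' s) x0 v :=
  rtg_mono (fun _ _ h => ⟨h.1, W1_sub h.2⟩) (W1_conn s hv)

theorem path_line {Y : L} (hY : Y ∈ AA s) {u v : V} (hu : S.on Y u) (hv : S.on Y v) :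
    ReflTransGen (fun a b => S.adj a b ∧ b ∈ W' s) u v :=
  rtg_mono (fun _ _ h => ⟨h.1, EE_sub (Or.inr ⟨Y, hY, h.2⟩)⟩) (S.line_conn Y u v hu hv)

theorem path_EE {v : V} (hv : v ∈ EE s) :
    ReflTransGen (fun a b => S.adj a b ∧ b ∈ W' s) x0 v := by
  rcases hv with hv | ⟨Y, hY, hon⟩
  · exact path_W1 hv
  · obtain ⟨_, w, hw, hon'⟩ := id hY
    exact (path_W1 hw).trans (path_line hY hon' hon)

theorem path_smul {n : G} (hn : n ∈ H' s) {u v : V}
    (h : ReflTransGen (fun a b => S.adj a b ∧ b ∈ W' s) u v) :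
    ReflTransGen (fun a b => S.adj a b ∧ b ∈ W' s) (n • u) (n • v) :=
  rtg_smul n (fun _ _ h => ⟨S.adj_smul n _ _ h.1, W'_inv hn h.2⟩) h

theorem path_H' {n : G} (hn : n ∈ H' s) :
    ReflTransGen (fun a b => S.adj a b ∧ b ∈ W' s) x0 (n • x0) := by
  refine H'_ind (s := s)
    (P := fun n => ReflTransGen (fun a b => S.adj a b ∧ b ∈ W' s) x0 (n • x0)) ?_ ?_ ?_ hn
  · rw [one_smul]
  · intro h hh x hx
    rw [mul_smul]
    exact (path_W1 (Or.inl (s.inv h hh _ s.x0_mem))).trans (path_smul (H_le s hh) hx)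
  · intro Y hY r hr x hx
    rw [mul_smul]
    have hrH : r ∈ H' s := rot_le_H' s Y hY hr
    obtain ⟨_, w, hw, hon⟩ := id hY
    have hrw : S.on Y (r • w) := by
      have := S.on_smul r Y w hon
      rwa [S.rot_fix Y r hr] at this
    have h1 := path_W1 hw
    have h2 := rtg_symm (S := S) (W1_sub (Or.inl s.x0_mem)) h1
    exact ((h1.trans (path_line hY hon hrw)).trans (path_smul hrH h2)).trans (path_smul hrH hx)

theorem path_W' {v : V} (hv : v ∈ W' s) :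
    ReflTransGen (fun a b => S.adj a b ∧ b ∈ W' s) x0 v := by
  obtain ⟨h, hh, e, he, rfl⟩ := hv
  exact (path_H' hh).trans (path_smul hh (path_EE he))

end step

/-- the next stage -/
def next (s : State S x0) : State S x0 where
  H := H' s
  W := W' s
  x0_mem := W1_sub (Or.inl s.x0_mem)
  inv := fun _ hh _ hw => W'_inv hh hw
  conn := fun _ hw => path_W' hw
  diam := fun _ => or_iff_not_imp_left.2 fun hY _ hu _ hv => W'_diam hY hu hv
  claim := fun _ hn h1 => claim' hn h1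

variable (S x0) in
/-- the first stage -/
def start : State S x0 where
  H := ⊥
  W := {x0}
  x0_mem := rfl
  inv := by
    intro h hh w hw
    rw [Subgroup.mem_bot] at hh
    rw [hh, one_smul]
    exact hw
  conn := by
    intro w hw
    rw [Set.mem_singleton_iff] at hw
    rw [hw]
  diam := by
    intro Y
    right
    intro u hu v hv
    rw [Set.mem_singleton_iff] at hu hv
    rw [hu, hv, S.d_self]
    omega
  claim := by
    intro n hn h1
    exact absurd (Subgroup.mem_bot.1 hn) h1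

variable (S x0) in
def stage : ℕ → State S x0
  | 0 => start S x0
  | n + 1 => next (stage n)

theorem stage_H_succ (n : ℕ) : (stage S x0 n).H ≤ (stage S x0 (n + 1)).H := H_le _

theorem stage_H_mono {m n : ℕ} (h : m ≤ n) : (stage S x0 m).H ≤ (stage S x0 n).H := by
  induction h with
  | refl => exact le_rfl
  | step _ ih => exact ih.trans (stage_H_succ _)

theorem stage_ball (v : V) : ∃ n, v ∈ (stage S x0 n).W := by
  have h := S.conn x0 v
  induction h with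
  | refl => exact ⟨0, rfl⟩
  | @tail b c _ hbc ih =>
    obtain ⟨n, hn⟩ := ih
    exact ⟨n + 1, W1_sub (Or.inr ⟨b, hn, hbc⟩)⟩

theorem stage_rot (Y : L) : ∃ n, S.rot Y ≤ (stage S x0 n).H := by
  obtain ⟨v, hv⟩ := S.line_ne Y
  obtain ⟨n, hn⟩ := stage_ball (S := S) (x0 := x0) v
  by_cases h : S.rot Y ≤ (stage S x0 n).H
  · exact ⟨n, h⟩
  · exact ⟨n + 1, rot_le_H' _ Y ⟨h, v, Or.inl hn, hv⟩⟩

/-- **the windmill theorem** -/
theorem wind_main (S : Sys G V L) (x0 : V) {n : G}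
    (hn : n ∈ Subgroup.closure {r | ∃ Y, r ∈ S.rot Y}) (h1 : n ≠ 1) :
    ∃ Y, S.T Y ≤ S.d Y x0 (n • x0) + (4 * S.th Y + 4) := by
  have key : ∃ i, n ∈ (stage S x0 i).H := by
    induction hn using Subgroup.closure_induction with
    | mem x hx =>
      obtain ⟨Y, hY⟩ := hx
      obtain ⟨i, hi⟩ := stage_rot (S := S) (x0 := x0) Y
      exact ⟨i, hi hY⟩
    | one => exact ⟨0, Subgroup.one_mem _⟩
    | mul x y _ _ ihx ihy =>
      by_cases hx1 : x = 1
      · subst hx1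
        rw [one_mul] at h1 ⊢
        exact ihy h1
      by_cases hy1 : y = 1
      · subst hy1
        rw [mul_one] at h1 ⊢
        exact ihx h1
      obtain ⟨i, hi⟩ := ihx hx1
      obtain ⟨j, hj⟩ := ihy hy1
      exact ⟨max i j, Subgroup.mul_mem _ (stage_H_mono (le_max_left i j) hi)
        (stage_H_mono (le_max_right i j) hj)⟩
    | inv x _ ih =>
      obtain ⟨i, hi⟩ := ih (fun h => h1 (by rw [h, inv_one]))
      exact ⟨i, Subgroup.inv_mem _ hi⟩
  obtain ⟨i, hi⟩ := key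
  exact (stage S x0 i).claim n hi h1

end Pool.Agent.Helper844.SCV.SC
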